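import Pool.Agent.helper55.VD.SpecE3

/-! vd:EE1, `Hop` of the eigenfunction -/

set_option autoImplicit false

open scoped ContDiff Topology InnerProductSpace ComplexConjugate ENNReal
open MeasureTheory Filter Set

namespace Pool.Agent.VD

open Pool.Agent.VQ (CH KZ PS perZ cmZ)
open Pool.Agent.RPQ (IsOp)

noncomputable section

/-- derivative bounds for `e^(a f)` -/
theorem EE1_w (d : ℕ) (a b0 b1 b2 : ℝ) : ∃ C : ℝ, 1 ≤ C ∧ ∀ (f : V d → ℝ) (x : V d), ContDiff ℝ ∞ f →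
    ‖iteratedFDeriv ℝ 0 f x‖ ≤ b0 → ‖iteratedFDeriv ℝ 1 f x‖ ≤ b1 → ‖iteratedFDeriv ℝ 2 f x‖ ≤ b2 →
    ‖fderiv ℝ (fun y => ((Real.exp (a * f y) : ℝ) : ℂ)) x‖ ≤ C ∧
    ‖iteratedFDeriv ℝ 2 (fun y => ((Real.exp (a * f y) : ℝ) : ℂ)) x‖ ≤ C := by
  set g : ℝ → ℂ := fun t => ((Real.exp (a * t) : ℝ) : ℂ) with hg
  have hgs : ContDiff ℝ ∞ g :=
    Complex.ofRealCLM.contDiff.comp (Real.contDiff_exp.comp (contDiff_const.mul contDiff_id))
  have hb : ∀ i : ℕ, ∃ C : ℝ, ∀ t ∈ Icc (-b0) b0, ‖iteratedFDeriv ℝ i g t‖ ≤ C := fun i =>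
    isCompact_Icc.exists_bound_of_continuousOn (hgs.continuous_iteratedFDeriv (by exact_mod_cast le_top)).continuousOn
  choose Cg hCg using hb
  set Cm : ℝ := |Cg 0| + |Cg 1| + |Cg 2| with hCm
  set D : ℝ := 1 + |b1| + |b2| with hD
  have hD1 : 1 ≤ D := by
    rw [hD]
    linarith [abs_nonneg b1, abs_nonneg b2]
  have hCm0 : 0 ≤ Cm := by positivity
  refine ⟨1 + 2 * Cm * D ^ 2, by nlinarith [mul_nonneg hCm0 (sq_nonneg D)], ?_⟩
  intro f x hf h0 h1 h2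
  have hfx : f x ∈ Icc (-b0) b0 := by
    rw [norm_iteratedFDeriv_zero, Real.norm_eq_abs] at h0
    exact abs_le.1 h0
  have hC : ∀ n : ℕ, n ≤ 2 → ∀ i ≤ n, ‖iteratedFDeriv ℝ i g (f x)‖ ≤ Cm := by
    intro n hn i hi
    have h3 := hCg i (f x) hfx
    have h4 : i = 0 ∨ i = 1 ∨ i = 2 := by omega
    rcases h4 with rfl | rfl | rfl
    · linarith [le_abs_self (Cg 0), abs_nonneg (Cg 1), abs_nonneg (Cg 2)]
    · linarith [le_abs_self (Cg 1), abs_nonneg (Cg 0), abs_nonneg (Cg 2)]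
    · linarith [le_abs_self (Cg 2), abs_nonneg (Cg 1), abs_nonneg (Cg 0)]
  have hDi : ∀ n : ℕ, n ≤ 2 → ∀ i, 1 ≤ i → i ≤ n → ‖iteratedFDeriv ℝ i f x‖ ≤ D ^ i := by
    intro n hn i hi1 hi
    have h4 : i = 1 ∨ i = 2 := by omega
    rcases h4 with rfl | rfl
    · rw [pow_one]
      linarith [le_abs_self b1, abs_nonneg b2]
    · nlinarith [le_abs_self b2, abs_nonneg b1]
  have h1' := norm_iteratedFDeriv_comp_le (contDiff_infty.1 hgs 1) (contDiff_infty.1 hf 1) (n := 1) le_rfl x (hC 1 (by norm_num)) (hDi 1 (by norm_num))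
  have h2' := norm_iteratedFDeriv_comp_le (contDiff_infty.1 hgs 2) (contDiff_infty.1 hf 2) (n := 2) le_rfl x (hC 2 (by norm_num)) (hDi 2 (by norm_num))
  have e : (fun y => ((Real.exp (a * f y) : ℝ) : ℂ)) = g ∘ f := rfl
  rw [e]
  constructor
  · rw [← norm_iteratedFDeriv_one]
    refine h1'.trans ?_
    norm_num
    nlinarith [mul_nonneg hCm0 (by linarith : 0 ≤ D)]
  · refine h2'.trans ?_
    norm_num

/-- the pointwise bound of `lap G w / w` in a ball -/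
theorem EE1_V (hEHB : EHB_stmt) (d m : ℕ) (Γ : Type) [Group Γ] [MulAction Γ (V d)] (K : Set (V d)) (k : ℝ) (B : ℕ → ℕ → ℝ) (a : ℝ) :
    ∃ C : ℝ, 1 ≤ C ∧ ∀ (G : V d → V d →L[ℝ] V d) (f : V d → ℝ) (x : V d), Cls Γ K k B G → ContDiff ℝ ∞ f →
      (∀ (m n : ℕ) (x : V d), n ≤ 2 → ‖x‖ ≤ m → ‖iteratedFDeriv ℝ n f x‖ ≤ B m n) → ‖x‖ ≤ m →
      ‖lap G (fun y => ((Real.exp (a * f y) : ℝ) : ℂ)) x‖ ≤ C * Real.exp (a * f x) := by
  set b : ℝ := |B m 0| + |B m 1| with hb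
  obtain ⟨C1, hC1, h1⟩ := hEHB d b
  obtain ⟨C2, hC2, h2⟩ := EE1_w d a (B m 0) (B m 1) (B m 2)
  refine ⟨C1 * C2 * Real.exp (|a| * |B m 0|), ?_, ?_⟩
  · have h3 : 1 ≤ Real.exp (|a| * |B m 0|) := Real.one_le_exp (by positivity)
    have h4 : 1 ≤ C1 * C2 := by nlinarith
    nlinarith
  · intro G f x hG hf hder hx
    obtain ⟨h3, h4⟩ := h2 f x hf (hder m 0 x (by norm_num) hx) (hder m 1 x (by norm_num) hx) (hder m 2 x (by norm_num) hx)
    have hlo : ∀ u, ‖u‖ ^ 2 ≤ b * ⟪G x u, u⟫_ℝ := by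
      intro u
      have h5 := hG.lo m x u hx
      have h6 : 0 ≤ ⟪G x u, u⟫_ℝ := by
        by_cases hu : u = 0
        · rw [hu]
          simp
        · exact (hG.met.pos x u hu).le
      refine h5.trans (mul_le_mul_of_nonneg_right ?_ h6)
      rw [hb]
      linarith [le_abs_self (B m 0), abs_nonneg (B m 1)]
    have hb0 : ‖G x‖ ≤ b := by
      have h5 := hG.bd m 0 x hx
      rw [norm_iteratedFDeriv_zero] at h5
      linarith [le_abs_self (B m 0), abs_nonneg (B m 1)]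
    have hb1 : ‖fderiv ℝ G x‖ ≤ b := by
      have h5 := hG.bd m 1 x hx
      rw [norm_iteratedFDeriv_one] at h5
      linarith [le_abs_self (B m 1), abs_nonneg (B m 0)]
    have hw : ContDiff ℝ 2 (fun y => ((Real.exp (a * f y) : ℝ) : ℂ)) :=
      Complex.ofRealCLM.contDiff.comp (Real.contDiff_exp.comp (contDiff_const.mul (contDiff_infty.1 hf 2)))
    have h5 := h1 G (fun y => ((Real.exp (a * f y) : ℝ) : ℂ)) x C2 hG.met hw hlo hb0 hb1 h3 h4
    refine h5.trans ?_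
    have h6 : 1 ≤ Real.exp (|a| * |B m 0|) * Real.exp (a * f x) := by
      rw [← Real.exp_add]
      apply Real.one_le_exp
      have h7 := hder m 0 x (by norm_num) hx
      rw [norm_iteratedFDeriv_zero, Real.norm_eq_abs] at h7
      have h8 : |a * f x| ≤ |a| * |B m 0| := by
        rw [abs_mul]
        exact mul_le_mul_of_nonneg_left (h7.trans (le_abs_self _)) (abs_nonneg a)
      linarith [neg_abs_le (a * f x)]
    have h7 : 0 ≤ C1 * C2 := by nlinarith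
    calc C1 * C2 = C1 * C2 * 1 := (mul_one _).symm
      _ ≤ C1 * C2 * (Real.exp (|a| * |B m 0|) * Real.exp (a * f x)) := mul_le_mul_of_nonneg_left h6 h7
      _ = _ := by ring

theorem EE1_root {c R : ℝ} (n : ℕ) (hn : n ≠ 0) (hc : 0 < c) (h : c ^ n ≤ R) : c ≤ R ^ (1 / (n : ℝ)) := by
  have h1 : c = (c ^ n) ^ (1 / (n : ℝ)) := by
    rw [one_div, Real.pow_rpow_inv_natCast hc.le hn]
  rw [h1]
  exact Real.rpow_le_rpow (by positivity) h (by positivity)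

/-- the main estimate for the factor (copy of `EDH_main` of helper55) -/
theorem EE1_main {R μ x f : ℝ} (hR : 2 ≤ R) (hμ : 0 < μ) (hμ1 : |Real.sqrt μ - R| ≤ R ^ (-(1 / 100) : ℝ))
    (hf : |f| ≤ R ^ (1 / 100 : ℝ) / R) (hx : |x - f| ≤ R ^ (-3 : ℝ)) :
    |μ / R ^ 2 * Real.exp x - 1 - f| ≤ 14 * (R ^ (-(1 / 100) : ℝ) / R) := by
  have hR0 : 0 < R := by linarith
  have hR1 : 1 ≤ R := by linarith
  set η : ℝ := R ^ (-(1 / 100) : ℝ) with hη
  have hη0 : 0 < η := Real.rpow_pos_of_pos hR0 _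
  have hη1 : η ≤ 1 := Real.rpow_le_one_of_one_le_of_nonpos hR1 (by norm_num)
  have e1 : η / R = R ^ (-(101 / 100) : ℝ) := by
    rw [hη, ← Real.rpow_sub_one hR0.ne']
    congr 1
    norm_num
  have e2 : R ^ (1 / 100 : ℝ) / R = R ^ (-(99 / 100) : ℝ) := by
    rw [← Real.rpow_sub_one hR0.ne']
    congr 1
    norm_num
  set a : ℝ := R ^ (-(99 / 100) : ℝ) with ha
  have ha0 : 0 < a := Real.rpow_pos_of_pos hR0 _
  have hb : R ^ (-3 : ℝ) ≤ R ^ (-(101 / 100) : ℝ) := Real.rpow_le_rpow_of_exponent_le hR1 (by norm_num)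
  have hba : R ^ (-3 : ℝ) ≤ a := Real.rpow_le_rpow_of_exponent_le hR1 (by norm_num)
  have haa : a * a ≤ R ^ (-(101 / 100) : ℝ) := by
    rw [ha, ← Real.rpow_add hR0]
    exact Real.rpow_le_rpow_of_exponent_le hR1 (by norm_num)
  have hxa : |x| ≤ 2 * a := by
    have h1 : |x| ≤ |x - f| + |f| := by
      have h2 : x = (x - f) + f := by ring
      calc |x| = |(x - f) + f| := by rw [← h2]
        _ ≤ |x - f| + |f| := abs_add_le _ _
    rw [e2] at hf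
    linarith
  have hb8 : R ^ (-3 : ℝ) ≤ 1 / 8 := by
    have h1 : R ^ (-3 : ℝ) = (R ^ 3)⁻¹ := by
      rw [Real.rpow_neg hR0.le]
      norm_num
    rw [h1, inv_eq_one_div]
    apply one_div_le_one_div_of_le (by norm_num)
    nlinarith [pow_le_pow_left₀ (by norm_num : (0 : ℝ) ≤ 2) hR 3]
  have ha1 : a ≤ 3 / 4 := by
    have h1 : a ≤ (2 : ℝ) ^ (-(99 / 100) : ℝ) := Real.rpow_le_rpow_of_nonpos (by norm_num) hR (by norm_num)
    have h2 : (2 : ℝ) ^ (-(99 / 100) : ℝ) ≤ (2 : ℝ) ^ (-(1 / 2) : ℝ) :=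
      Real.rpow_le_rpow_of_exponent_le (by norm_num) (by norm_num)
    have h3 : (2 : ℝ) ^ (-(1 / 2) : ℝ) ≤ 3 / 4 := by
      rw [Real.rpow_neg (by norm_num), ← Real.sqrt_eq_rpow]
      have h4 : (4 : ℝ) / 3 ≤ Real.sqrt 2 := Real.le_sqrt_of_sq_le (by norm_num)
      rw [inv_le_comm₀ (by positivity) (by norm_num)]
      norm_num at h4 ⊢
      exact h4
    linarith
  have hx1 : |x| ≤ 1 := by
    have h1 : |x| ≤ |x - f| + |f| := by
      have h2 : x = (x - f) + f := by ring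
      calc |x| = |(x - f) + f| := by rw [← h2]
        _ ≤ |x - f| + |f| := abs_add_le _ _
    rw [e2] at hf
    linarith
  have hexp : |Real.exp x - 1 - x| ≤ x ^ 2 := Real.abs_exp_sub_one_sub_id_le hx1
  have hx2 : x ^ 2 ≤ 4 * (a * a) := by
    have h1 : x ^ 2 = |x| ^ 2 := (sq_abs x).symm
    rw [h1]
    nlinarith [abs_nonneg x]
  have he3 : Real.exp x ≤ 3 := by
    have h1 := (abs_le.1 hexp).2
    have h2 := (abs_le.1 hx1).2
    have h3 : x ^ 2 ≤ 1 := by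
      rw [← sq_abs]
      nlinarith [abs_nonneg x]
    linarith
  have hmu : |μ / R ^ 2 - 1| ≤ 3 * (η / R) := by
    have h1 : μ = Real.sqrt μ ^ 2 := (Real.sq_sqrt hμ.le).symm
    have h2 : μ / R ^ 2 - 1 = (Real.sqrt μ - R) * ((Real.sqrt μ + R) / R ^ 2) := by
      nth_rewrite 1 [h1]
      field_simp
      ring
    have h3 : 0 ≤ Real.sqrt μ := Real.sqrt_nonneg μ
    have h4 : Real.sqrt μ ≤ R + 1 := by
      have := (abs_le.1 hμ1).2
      linarith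
    rw [h2, abs_mul, abs_of_nonneg (by positivity : 0 ≤ (Real.sqrt μ + R) / R ^ 2)]
    have h5 : (Real.sqrt μ + R) / R ^ 2 ≤ 3 / R := by
      rw [div_le_div_iff₀ (by positivity) hR0]
      nlinarith
    calc |Real.sqrt μ - R| * ((Real.sqrt μ + R) / R ^ 2) ≤ η * (3 / R) :=
          mul_le_mul hμ1 h5 (by positivity) hη0.le
      _ = 3 * (η / R) := by ring
  have hsplit : μ / R ^ 2 * Real.exp x - 1 - f = (Real.exp x - 1 - x) + (x - f) + (μ / R ^ 2 - 1) * Real.exp x := by ring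
  rw [hsplit]
  have h6 : |(μ / R ^ 2 - 1) * Real.exp x| ≤ 3 * (η / R) * 3 := by
    rw [abs_mul, abs_of_pos (Real.exp_pos x)]
    exact mul_le_mul hmu he3 (Real.exp_pos x).le (by positivity)
  have h7 := abs_add_le ((Real.exp x - 1 - x) + (x - f)) ((μ / R ^ 2 - 1) * Real.exp x)
  have h8 := abs_add_le (Real.exp x - 1 - x) (x - f)
  rw [← e1] at hb haa
  linarith

/-- **EE1** -/
theorem EE1_proof (hEHL : EHL_stmt) (hEHC : EHC_stmt) (hEHI : EHI_stmt) (hEHB : EHB_stmt) : EE1_stmt := by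
  intro d Γ _ _ K k B hFdK
  -- the radius of `K`
  obtain ⟨r, hr⟩ := hFdK.compact.isBounded.exists_norm_le
  obtain ⟨m, hm⟩ := exists_nat_ge r
  have hKm : ∀ x ∈ K, ‖x‖ ≤ m := fun x hx => (hr x hx).trans hm
  set a : ℝ := ((d : ℝ) - 2) / 4 with ha
  obtain ⟨CV, hCV, hV⟩ := EE1_V hEHB d m Γ K k B a
  obtain ⟨c0, hc0⟩ : ∃ c0 : ℝ, c0 = 7 + CV := ⟨_, rfl⟩
  refine ⟨max 2 (c0 ^ 10100), le_max_left _ _, ?_⟩
  intro F G R f f' μ φ hR hFD hG hE
  have hR2 : 2 ≤ R := (le_max_left _ _).trans hR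
  have hRa : c0 ^ 10100 ≤ R := (le_max_right _ _).trans hR
  have h8 : c0 ≤ R ^ (1 / ((10100 : ℕ) : ℝ)) := EE1_root 10100 (by norm_num) (by rw [hc0]; linarith) hRa
  rw [hc0] at h8
  clear hRa hR hc0
  have hR0 : 0 < R := by linarith
  have hR1 : 1 ≤ R := by linarith
  obtain ⟨hφ2, hφi, hφe⟩ := hE.eig
  set w : V d → ℂ := fun y => ((Real.exp (a * f' y) : ℝ) : ℂ) with hw
  have hw2 : ContDiff ℝ 2 w :=
    Complex.ofRealCLM.contDiff.comp (Real.contDiff_exp.comp (contDiff_const.mul (contDiff_infty.1 hE.smooth 2)))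
  have hu2 : ContDiff ℝ 2 (uE f' φ) := hw2.mul hφ2
  have hwn : ∀ x, ‖w x‖ = Real.exp (a * f' x) := by
    intro x
    rw [hw]
    change ‖((Real.exp (a * f' x) : ℝ) : ℂ)‖ = _
    rw [Complex.norm_real, Real.norm_eq_abs, abs_of_pos (Real.exp_pos _)]
  have hwne : ∀ x, w x ≠ 0 := by
    intro x h
    have h1 := hwn x
    rw [h, norm_zero] at h1
    exact (Real.exp_pos _).ne h1
  -- invariance
  have hwi : ∀ (γ : Γ) (x : V d), w (γ • x) = w x := by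
    intro γ x
    change ((Real.exp (a * f' (γ • x)) : ℝ) : ℂ) = ((Real.exp (a * f' x) : ℝ) : ℂ)
    rw [hE.inv γ x]
  have hui : ∀ (γ : Γ) (x : V d), uE f' φ (γ • x) = uE f' φ x := by
    intro γ x
    change w (γ • x) * φ (γ • x) = w x * φ x
    rw [hwi, hφi γ x]
  have hlapi : ∀ v : V d → ℂ, ContDiff ℝ 2 v → (∀ (γ : Γ) (x : V d), v (γ • x) = v x) → ∀ (γ : Γ) (x : V d), lap G v (γ • x) = lap G v x := by
    intro v hv hvi γ x
    rw [← hEHI d Γ G v hG.met hFdK.smooth hG.isom hv γ x]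
    have h1 : (fun y : V d => v (γ • y)) = v := funext fun y => hvi γ y
    rw [h1]
  -- the bound of `lap G w / w`
  have hVb : ∀ x, ‖lap G w x / w x‖ ≤ CV := by
    intro x
    obtain ⟨γ, hγ⟩ := hFdK.cover x
    have h1 := hV G f' (γ • x) hG hE.smooth hE.der (hKm _ hγ)
    have h2 : lap G w (γ • x) = lap G w x := hlapi w hw2 hwi γ x
    have h3 : lap G (fun y => ((Real.exp (a * f' y) : ℝ) : ℂ)) (γ • x) = lap G w x := h2
    rw [h3, hE.inv γ x] at h1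
    rw [norm_div, hwn, div_le_iff₀ (Real.exp_pos _)]
    exact h1
  -- the factor
  have hlapu : ∀ x, lap G (uE f' φ) x = (-((μ * Real.exp (f' x) : ℝ) : ℂ) + lap G w x / w x) * uE f' φ x := by
    intro x
    have h1 : lap G (uE f' φ) x = _ := hEHL d G f' φ hG.met hE.smooth hφ2 x
    rw [h1]
    have h2 : lap (fun y => Real.exp (f' y) • G y) φ x = -((μ : ℂ) * φ x) := eq_neg_of_add_eq_zero_left (hφe x)
    rw [h2]
    have h3 : ((Real.exp (((d : ℝ) - 2) / 4 * f' x + f' x) : ℝ) : ℂ) = w x * ((Real.exp (f' x) : ℝ) : ℂ) := by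
      rw [Real.exp_add, Complex.ofReal_mul]
    rw [h3]
    change w x * ((Real.exp (f' x) : ℝ) : ℂ) * -((μ : ℂ) * φ x) + φ x * lap G w x = _ * (w x * φ x)
    have h4 : lap G w x / w x * (w x * φ x) = φ x * lap G w x := by
      have := hwne x
      field_simp
    rw [add_mul, h4]
    push_cast
    ring
  have hHop : ∀ x, Hop G R (uE f' φ) x = ((((2 * R)⁻¹ * (μ * Real.exp (f' x) - R ^ 2) : ℝ) : ℂ) - (((2 * R)⁻¹ : ℝ) : ℂ) * (lap G w x / w x)) * uE f' φ x := by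
    intro x
    unfold Hop
    rw [hlapu x]
    push_cast
    ring
  have hkey : ∀ x, ‖(((2 * R)⁻¹ * (μ * Real.exp (f' x) - R ^ 2) : ℝ) : ℂ) - (((2 * R)⁻¹ : ℝ) : ℂ) * (lap G w x / w x) - ((R / 2 * f x : ℝ) : ℂ)‖ ≤ R ^ (-(1 / 101) : ℝ) := by
    intro x
    have h1 := EE1_main (x := f' x) hR2 hE.mu0 hE.mu1 (hE.sm.bd x) (hE.near x)
    have h2 : (((2 * R)⁻¹ * (μ * Real.exp (f' x) - R ^ 2) : ℝ) : ℂ) - (((2 * R)⁻¹ : ℝ) : ℂ) * (lap G w x / w x) - ((R / 2 * f x : ℝ) : ℂ) =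
        ((R / 2 * (μ / R ^ 2 * Real.exp (f' x) - 1 - f x) : ℝ) : ℂ) - (((2 * R)⁻¹ : ℝ) : ℂ) * (lap G w x / w x) := by
      have h3 : (2 * R)⁻¹ * (μ * Real.exp (f' x) - R ^ 2) = R / 2 * (μ / R ^ 2 * Real.exp (f' x) - 1 - f x) + R / 2 * f x := by
        field_simp
        ring
      rw [h3]
      push_cast
      ring
    rw [h2]
    refine (norm_sub_le _ _).trans ?_
    rw [Complex.norm_real, Real.norm_eq_abs, norm_mul, Complex.norm_real, Real.norm_eq_abs, abs_mul,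
      abs_of_pos (by positivity : 0 < R / 2), abs_of_pos (by positivity : 0 < (2 * R)⁻¹)]
    have h4 : R / 2 * |μ / R ^ 2 * Real.exp (f' x) - 1 - f x| ≤ 7 * R ^ (-(1 / 100) : ℝ) := by
      calc R / 2 * |μ / R ^ 2 * Real.exp (f' x) - 1 - f x| ≤ R / 2 * (14 * (R ^ (-(1 / 100) : ℝ) / R)) :=
            mul_le_mul_of_nonneg_left h1 (by positivity)
        _ = 7 * R ^ (-(1 / 100) : ℝ) := by
            field_simp
            norm_num
    have h5 : (2 * R)⁻¹ * ‖lap G w x / w x‖ ≤ CV * R ^ (-(1 / 100) : ℝ) := by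
      have h6 : (2 * R)⁻¹ ≤ R ^ (-(1 / 100) : ℝ) := by
        have h7 : (2 * R)⁻¹ ≤ R⁻¹ := inv_anti₀ hR0 (by linarith)
        have h8' : R⁻¹ = R ^ (-1 : ℝ) := (Real.rpow_neg_one R).symm
        rw [h8'] at h7
        exact h7.trans (Real.rpow_le_rpow_of_exponent_le hR1 (by norm_num))
      calc (2 * R)⁻¹ * ‖lap G w x / w x‖ ≤ R ^ (-(1 / 100) : ℝ) * CV :=
            mul_le_mul h6 (hVb x) (norm_nonneg _) (Real.rpow_nonneg hR0.le _)
        _ = _ := mul_comm _ _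
    have h9 : R ^ (-(1 / 101) : ℝ) = R ^ (1 / ((10100 : ℕ) : ℝ)) * R ^ (-(1 / 100) : ℝ) := by
      rw [← Real.rpow_add hR0]
      congr 1
      norm_num
    rw [h9]
    calc _ ≤ 7 * R ^ (-(1 / 100) : ℝ) + CV * R ^ (-(1 / 100) : ℝ) := add_le_add h4 h5
      _ = (7 + CV) * R ^ (-(1 / 100) : ℝ) := by ring
      _ ≤ _ := mul_le_mul_of_nonneg_right h8 (Real.rpow_nonneg hR0.le _)
  have hres : ∀ z, ‖Hop G R (uE f' φ) z - ((R / 2 * f z : ℝ) : ℂ) * uE f' φ z‖ ≤ R ^ (-(1 / 101) : ℝ) * ‖uE f' φ z‖ := by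
    intro z
    rw [hHop z, ← sub_mul, norm_mul]
    exact mul_le_mul_of_nonneg_right (hkey z) (norm_nonneg _)
  have hlapc : Continuous (lap G (uE f' φ)) := ((hEHC d G hG.met).1 _ hu2).1
  obtain ⟨bF, hbF⟩ := hFD.bdd
  refine ⟨hE.sm, ⟨hu2.continuous, fun γ _ z => hui γ z, bF, fun z hz _ => hbF z hz⟩, hu2,
    ⟨?_, ?_, bF, fun z hz _ => hbF z hz⟩, hres, ?_⟩
  · unfold Hop
    exact continuous_const.mul (hlapc.neg.sub (continuous_const.mul hu2.continuous))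
  · intro γ _ z
    unfold Hop
    rw [hlapi _ hu2 hui γ z, hui γ z]
  · intro z
    have h1 := hres z
    have h2 : ‖((R / 2 * f z : ℝ) : ℂ) * uE f' φ z‖ ≤ (R ^ (1 / 100 : ℝ) / 2) * ‖uE f' φ z‖ := by
      rw [norm_mul, Complex.norm_real, Real.norm_eq_abs, abs_mul, abs_of_pos (by positivity : 0 < R / 2)]
      refine mul_le_mul_of_nonneg_right ?_ (norm_nonneg _)
      calc R / 2 * |f z| ≤ R / 2 * (R ^ (1 / 100 : ℝ) / R) := mul_le_mul_of_nonneg_left (hE.sm.bd z) (by positivity)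
        _ = R ^ (1 / 100 : ℝ) / 2 := by field_simp
    have h3 : ‖Hop G R (uE f' φ) z‖ ≤ ‖Hop G R (uE f' φ) z - ((R / 2 * f z : ℝ) : ℂ) * uE f' φ z‖ + ‖((R / 2 * f z : ℝ) : ℂ) * uE f' φ z‖ := by
      have h4 := norm_add_le (Hop G R (uE f' φ) z - ((R / 2 * f z : ℝ) : ℂ) * uE f' φ z) (((R / 2 * f z : ℝ) : ℂ) * uE f' φ z)
      rwa [sub_add_cancel] at h4
    have h7 : R ^ (-(1 / 101) : ℝ) ≤ 1 := Real.rpow_le_one_of_one_le_of_nonpos hR1 (by norm_num)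
    have h8 : 1 ≤ R ^ (1 / 100 : ℝ) := Real.one_le_rpow hR1 (by norm_num)
    calc ‖Hop G R (uE f' φ) z‖ ≤ R ^ (-(1 / 101) : ℝ) * ‖uE f' φ z‖ + (R ^ (1 / 100 : ℝ) / 2) * ‖uE f' φ z‖ := by linarith
      _ = (R ^ (-(1 / 101) : ℝ) + R ^ (1 / 100 : ℝ) / 2) * ‖uE f' φ z‖ := by ring
      _ ≤ 2 * R ^ (1 / 100 : ℝ) * ‖uE f' φ z‖ := mul_le_mul_of_nonneg_right (by linarith) (norm_nonneg _)

end

end Pool.Agent.VD
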